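import Pool.Agent.Lib.MP_225355_nt.Final

/-!
# An upper bound for the number of sums of three nonnegative cubes below the trivial bound
-/

namespace Pool.Agent.Results.MP_225355_nt.UpperDensity

open Filter Pool.Agent.Lib.MP_225355_nt

/-- The number of the integers `n` with `1 ≤ n ≤ x` that are sums of three nonnegative cubes. -/
noncomputable def N (x : ℝ) : ℕ :=
  Set.ncard {n : ℤ | 1 ≤ n ∧ (n : ℝ) ≤ x ∧ ∃ a b c : ℤ, 0 ≤ a ∧ 0 ≤ b ∧ 0 ≤ c ∧ n = a ^ 3 + b ^ 3 + c ^ 3}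

theorem N_eq {x : ℝ} (hx : 0 ≤ x) : N x = NX ⌊x⌋₊ := by
  classical
  unfold N NX
  have h1 : {n : ℤ | 1 ≤ n ∧ (n : ℝ) ≤ x ∧ ∃ a b c : ℤ, 0 ≤ a ∧ 0 ≤ b ∧ 0 ≤ c ∧ n = a ^ 3 + b ^ 3 + c ^ 3} =
      (fun n : ℕ => (n : ℤ)) '' (((Finset.Icc 1 ⌊x⌋₊).filter S3 : Finset ℕ) : Set ℕ) := by
    ext n
    simp only [Set.mem_setOf_eq, Set.mem_image, Finset.coe_filter, Finset.mem_Icc]
    constructor
    · rintro ⟨h1, h2, a, b, c, ha, hb, hc, h3⟩
      lift a to ℕ using ha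
      lift b to ℕ using hb
      lift c to ℕ using hc
      have h4 : n = ((a ^ 3 + b ^ 3 + c ^ 3 : ℕ) : ℤ) := by
        rw [h3]
        push_cast
        ring
      refine ⟨a ^ 3 + b ^ 3 + c ^ 3, ⟨⟨?_, ?_⟩, a, b, c, rfl⟩, h4.symm⟩
      · rw [h4] at h1
        exact_mod_cast h1
      · rw [Nat.le_floor_iff hx]
        rw [h4] at h2
        exact_mod_cast h2
    · rintro ⟨m, ⟨⟨h1, h2⟩, a, b, c, h3⟩, rfl⟩
      refine ⟨by exact_mod_cast h1, ?_, a, b, c, by positivity, by positivity, by positivity, ?_⟩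
      · rw [Nat.le_floor_iff hx] at h2
        exact_mod_cast h2
      · rw [← h3]
        push_cast
        ring
  rw [h1, Set.ncard_image_of_injective _ Nat.cast_injective, Set.ncard_coe_finset]

/-- **An upper bound below the trivial one.** For all large `x` there are at most `(Γ(4/3)³/6 - 0.0019) x`
integers `1 ≤ n ≤ x` that are sums of three nonnegative cubes. -/
theorem result : ∀ᶠ x : ℝ in atTop, (N x : ℝ) ≤ (Real.Gamma (4 / 3) ^ 3 / 6 - 0.0019) * x := by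
  have h0 := Sq_lt
  obtain ⟨ε, hε⟩ : ∃ ε : ℝ, ε = (V / 6 - 0.0019) -
      Sq (64 * (243 * (7 * (13 * (19 * (31 * (37 * (43 * (61 * (67 * 1)))))))))) := ⟨_, rfl⟩
  have hε0 : 0 < ε := by
    rw [hε]
    linarith
  have h1 := NX_min (q := 64 * (243 * (7 * (13 * (19 * (31 * (37 * (43 * (61 * (67 * 1)))))))))) hε0
  have h2 : Sq (64 * (243 * (7 * (13 * (19 * (31 * (37 * (43 * (61 * (67 * 1)))))))))) + ε = V / 6 - 0.0019 := by
    rw [hε]
    ring
  rw [h2] at h1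
  have h3 : (0 : ℝ) ≤ V / 6 - 0.0019 := by
    have h4 := Sq_nonneg (q := 64 * (243 * (7 * (13 * (19 * (31 * (37 * (43 * (61 * (67 * 1))))))))))
    linarith
  filter_upwards [tendsto_nat_floor_atTop.eventually h1, eventually_ge_atTop 0] with x hx hx0
  rw [N_eq hx0]
  refine hx.trans ?_
  exact mul_le_mul_of_nonneg_left (Nat.floor_le hx0) h3

end Pool.Agent.Results.MP_225355_nt.UpperDensity
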